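import Mathlib
import Pool.Agent.H57.CP.Targets

/-!
# Literal chirality gives chirality in set form (module LB)
-/

open Set

namespace Pool.Agent.H83.CP.LB

open Pool.Agent.H57.CP

theorem gen {α : Type*} (F : α → α) (hF : Function.Bijective F) (S : Set α) :
    (F '' S = S) ↔ ∀ x, F x ∈ S ↔ x ∈ S := by
  constructor
  · intro h x
    constructor
    · intro hx
      rw [← h] at hx
      exact (hF.1.mem_set_image).1 hx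
    · intro hx
      rw [← h]
      exact (hF.1.mem_set_image).2 hx
  · intro h
    ext y
    obtain ⟨x, rfl⟩ := hF.2 y
    rw [hF.1.mem_set_image, h]

section

variable {P : Type} [PartialOrder P] {rk : P → ℤ} {β : P → H3}

/-- the image of a flag -/
def img (rk : P → ℤ) (β : P → H3) (Φ : P × P × P) : Fg := (β Φ.1, im1 rk β Φ.2.1, im2 rk β Φ.2.2)

theorem fl_img {Φ : P × P × P} (h : IsFlag rk Φ) : Fl (Kof rk β) (img rk β Φ) := by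
  obtain ⟨h0, h1, h2, h3, h4⟩ := h
  exact ⟨⟨Φ.1, ⟨h0, h3⟩, rfl⟩, ⟨Φ.2.1, ⟨h1, h4⟩, rfl⟩, ⟨Φ.2.2, h2, rfl⟩⟩

theorem fl_ex {Ψ : Fg} (h : Fl (Kof rk β) Ψ) : ∃ Φ, IsFlag rk Φ ∧ Ψ = img rk β Φ := by
  obtain ⟨x, a, b⟩ := Ψ
  obtain ⟨h1, h2, f, hf, h3⟩ := h
  simp only at h1 h2 h3
  subst h3
  obtain ⟨e, ⟨he, hef⟩, rfl⟩ := h2
  obtain ⟨v, ⟨hv, hve⟩, rfl⟩ := h1
  exact ⟨(v, e, f), ⟨hv, he, hf, hve, hef⟩, rfl⟩

theorem sy_iff (g : Equiv.Perm H3) : IsSymmetry rk β g ↔ Sy (Kof rk β) g := by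
  have b1 : Function.Bijective (Set.image g) := ⟨g.injective.image_injective, g.surjective.image_surjective⟩
  have b2 : Function.Bijective (Set.image (Set.image g)) := ⟨b1.1.image_injective, b1.2.image_surjective⟩
  constructor
  · rintro ⟨h, h0, h1, h2⟩
    exact ⟨h, (gen g g.bijective _).1 h0, (gen _ b1 _).1 h1, (gen _ b2 _).1 h2⟩
  · rintro ⟨h, h0, h1, h2⟩
    exact ⟨h, (gen g g.bijective _).2 h0, (gen _ b1 _).2 h1, (gen _ b2 _).2 h2⟩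

theorem eqv_iff (Φ Ψ : P × P × P) : Eqv (Kof rk β) (img rk β Φ) (img rk β Ψ) ↔ SameOrbit rk β Φ Ψ := by
  constructor
  · rintro ⟨g, hg, h⟩
    simp only [act, img, Prod.mk.injEq] at h
    exact ⟨g, (sy_iff g).2 hg, h.1, h.2.1, h.2.2⟩
  · rintro ⟨g, hg, h1, h2, h3⟩
    refine ⟨g, (sy_iff g).1 hg, ?_⟩
    simp only [act, img, Prod.mk.injEq]
    exact ⟨h1, h2, h3⟩

end

theorem lb : T_LB := by
  intro P _ _ rk β hp hf hc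
  constructor
  · obtain ⟨Φ, Ψ, hΦ, hΨ, h⟩ := hc.two
    exact ⟨img rk β Φ, img rk β Ψ, fl_img hΦ, fl_img hΨ, fun h' => h ((eqv_iff Φ Ψ).1 h')⟩
  · intro Φ Ψ Θ h1 h2 h3
    obtain ⟨Φ, hΦ, rfl⟩ := fl_ex h1
    obtain ⟨Ψ, hΨ, rfl⟩ := fl_ex h2
    obtain ⟨Θ, hΘ, rfl⟩ := fl_ex h3
    rw [eqv_iff, eqv_iff, eqv_iff]
    exact hc.le_two Φ Ψ Θ hΦ hΨ hΘ
  · intro Φ Ψ h1 h2 hadj
    obtain ⟨Φ, hΦ, rfl⟩ := fl_ex h1
    obtain ⟨Ψ, hΨ, rfl⟩ := fl_ex h2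
    rw [eqv_iff]
    apply hc.adj Φ Ψ hΦ hΨ
    have e0 : β Φ.1 = β Ψ.1 ↔ Φ.1 = Ψ.1 := ⟨hf.inj0 _ _ hΦ.1 hΨ.1, fun h => by rw [h]⟩
    have e1 : im1 rk β Φ.2.1 = im1 rk β Ψ.2.1 ↔ Φ.2.1 = Ψ.2.1 := ⟨hf.inj1 _ _ hΦ.2.1 hΨ.2.1, fun h => by rw [h]⟩
    have e2 : im2 rk β Φ.2.2 = im2 rk β Ψ.2.2 ↔ Φ.2.2 = Ψ.2.2 :=
      ⟨hf.inj2 _ _ hΦ.2.2.1 hΨ.2.2.1, fun h => by rw [h]⟩
    simp only [Adjacent, img, ne_eq, e0, e1, e2] at hadj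
    exact hadj

end Pool.Agent.H83.CP.LB
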