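import Mathlib
import Pool.Agent.H57.CP.Targets

/-!
# Polyhedra in set form are literal polyhedra (module LD)
-/

open Set

namespace Pool.Agent.H83.CP.LD

open Pool.Agent.H57.CP Pool.Agent.H57.CP.Cell

section

variable {K : Geo}

theorem vt_le_ed {x : H3} {hx : x ∈ K.V} {a : Set H3} {ha : a ∈ K.E} : vt x hx ≤ ed a ha ↔ x ∈ a := by
  simp [Cell.le_def, Cell.Le]

theorem vt_le_fc {x : H3} {hx : x ∈ K.V} {b : Set (Set H3)} {hb : b ∈ K.F} : vt x hx ≤ fc b hb ↔ ∃ a ∈ b, x ∈ a := by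
  simp [Cell.le_def, Cell.Le]

theorem ed_le_fc {a : Set H3} {ha : a ∈ K.E} {b : Set (Set H3)} {hb : b ∈ K.F} : ed a ha ≤ fc b hb ↔ a ∈ b := by
  simp [Cell.le_def, Cell.Le]

theorem ed_le_vt {x : H3} {hx : x ∈ K.V} {a : Set H3} {ha : a ∈ K.E} : ¬ ed a ha ≤ vt x hx := by
  simp [Cell.le_def, Cell.Le]

theorem fc_le_vt {x : H3} {hx : x ∈ K.V} {b : Set (Set H3)} {hb : b ∈ K.F} : ¬ fc b hb ≤ vt x hx := by
  simp [Cell.le_def, Cell.Le]

theorem fc_le_ed {a : Set H3} {ha : a ∈ K.E} {b : Set (Set H3)} {hb : b ∈ K.F} : ¬ fc b hb ≤ ed a ha := by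
  simp [Cell.le_def, Cell.Le]

theorem mono : StrictMono (Cell.rk (K := K)) := by
  intro x y h
  cases x <;> cases y <;> simp [lt_iff_le_not_ge, Cell.le_def, Cell.Le, Cell.rk] at h ⊢
  all_goals (rename_i h1 _ h2; first | exact h h2.symm | exact absurd h.1.symm h.2)

theorem eq_of_rk {x y : Cell K} (h : x ≤ y ∨ y ≤ x) (hr : Cell.rk x = Cell.rk y) : x = y := by
  rcases h with h | h
  · rcases eq_or_lt_of_le h with h | h
    · exact h
    · exact absurd (mono h) (by rw [hr]; exact lt_irrefl _)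
  · rcases eq_or_lt_of_le h with h | h
    · exact h.symm
    · exact absurd (mono h) (by rw [hr]; exact lt_irrefl _)

theorem add (C : Flag (Cell K)) (z : Cell K) (h : ∀ y ∈ C, z ≤ y ∨ y ≤ z) : z ∈ C := by
  have h1 : IsChain (· ≤ ·) (insert z (C : Set (Cell K))) :=
    C.chain_le.insert fun b hb _ => h b hb
  have h2 := C.max_chain' h1 (subset_insert _ _)
  have h3 : z ∈ (C : Set (Cell K)) := by
    show z ∈ C.carrier
    rw [h2]
    exact mem_insert _ _
  exact h3

/-- equal rank elements of a flag -/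
theorem flag_eq (C : Flag (Cell K)) {x y : Cell K} (hx : x ∈ C) (hy : y ∈ C) (h : Cell.rk x = Cell.rk y) : x = y :=
  eq_of_rk (C.le_or_le hx hy) h

theorem flag_ed (hK : IsGeo K) (C : Flag (Cell K)) : ∃ a ha, (ed a ha : Cell K) ∈ C := by
  by_contra hne
  push Not at hne
  have key : ∀ a (ha : a ∈ K.E), (∀ x hx, (vt x hx : Cell K) ∈ C → x ∈ a) → (∀ b hb, (fc b hb : Cell K) ∈ C → a ∈ b) →
      False := by
    intro a ha h1 h2
    refine hne a ha (add C _ ?_)
    intro y hy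
    cases y with
    | bot => right; exact bot_le
    | top => left; exact le_top
    | vt x hx => right; exact vt_le_ed.2 (h1 x hx hy)
    | ed a' ha' => exact absurd hy (hne a' ha')
    | fc b hb => left; exact ed_le_fc.2 (h2 b hb hy)
  by_cases hv : ∃ x hx, (vt x hx : Cell K) ∈ C
  · obtain ⟨x, hx, hxC⟩ := hv
    have hxu : ∀ y hy, (vt y hy : Cell K) ∈ C → y = x := by
      intro y hy h
      have := flag_eq C h hxC rfl
      injection this
    by_cases hf : ∃ b hb, (fc b hb : Cell K) ∈ C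
    · obtain ⟨b, hb, hbC⟩ := hf
      have hbu : ∀ y hy, (fc y hy : Cell K) ∈ C → y = b := by
        intro y hy h
        have := flag_eq C h hbC rfl
        injection this
      rcases C.le_or_le hxC hbC with h | h
      · obtain ⟨a, hab, hxa⟩ := vt_le_fc.1 h
        exact key a ((hK.fs b hb).1 hab) (fun y hy h => by rw [hxu y hy h]; exact hxa)
          (fun y hy h => by rw [hbu y hy h]; exact hab)
      · exact fc_le_vt h
    · push Not at hf
      obtain ⟨e, he, hxe⟩ := hK.ve x hx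
      exact key e he (fun y hy h => by rw [hxu y hy h]; exact hxe) (fun y hy h => absurd h (hf y hy))
  · push Not at hv
    by_cases hf : ∃ b hb, (fc b hb : Cell K) ∈ C
    · obtain ⟨b, hb, hbC⟩ := hf
      have hbu : ∀ y hy, (fc y hy : Cell K) ∈ C → y = b := by
        intro y hy h
        have := flag_eq C h hbC rfl
        injection this
      obtain ⟨hb1, a, hab⟩ := hK.fs b hb
      exact key a (hb1 hab) (fun y hy h => absurd h (hv y hy)) (fun y hy h => by rw [hbu y hy h]; exact hab)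
    · push Not at hf
      obtain ⟨x, hx⟩ := hK.ne
      obtain ⟨e, he, hxe⟩ := hK.ve x hx
      exact key e he (fun y hy h => absurd h (hv y hy)) (fun y hy h => absurd h (hf y hy))

theorem flag_vt (hK : IsGeo K) (C : Flag (Cell K)) : ∃ x hx, (vt x hx : Cell K) ∈ C := by
  by_contra hne
  push Not at hne
  obtain ⟨a, ha, haC⟩ := flag_ed hK C
  have hau : ∀ y hy, (ed y hy : Cell K) ∈ C → y = a := by
    intro y hy h
    have := flag_eq C h haC rfl
    injection this
  obtain ⟨x, hx, y, hy, hxy, hea⟩ := hK.ed a ha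
  have hxa : x ∈ a := by rw [hea]; simp
  refine hne x hx (add C _ ?_)
  intro z hz
  cases z with
  | bot => right; exact bot_le
  | top => left; exact le_top
  | vt x' hx' => exact absurd hz (hne x' hx')
  | ed a' ha' => left; rw [vt_le_ed, hau a' ha' hz]; exact hxa
  | fc b hb =>
    left
    rcases C.le_or_le haC hz with h | h
    · exact vt_le_fc.2 ⟨a, ed_le_fc.1 h, hxa⟩
    · exact absurd h fc_le_ed

theorem flag_fc (hK : IsGeo K) (C : Flag (Cell K)) : ∃ b hb, (fc b hb : Cell K) ∈ C := by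
  by_contra hne
  push Not at hne
  obtain ⟨a, ha, haC⟩ := flag_ed hK C
  have hau : ∀ y hy, (ed y hy : Cell K) ∈ C → y = a := by
    intro y hy h
    have := flag_eq C h haC rfl
    injection this
  obtain ⟨b, hb, hab⟩ : ({f | f ∈ K.F ∧ a ∈ f} : Set (Set (Set H3))).Nonempty := by
    rw [nonempty_iff_ne_empty]
    intro h
    have := hK.ef a ha
    rw [h] at this
    simp at this
  refine hne b hb (add C _ ?_)
  intro z hz
  cases z with
  | bot => right; exact bot_le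
  | top => left; exact le_top
  | vt x' hx' =>
    right
    rcases C.le_or_le haC hz with h | h
    · exact absurd h ed_le_vt
    · exact vt_le_fc.2 ⟨a, hab, vt_le_ed.1 h⟩
  | ed a' ha' => right; rw [ed_le_fc, hau a' ha' hz]; exact hab
  | fc b' hb' => exact absurd hz (hne b' hb')

theorem diamond (hK : IsGeo K) (x y : Cell K) (hxy : x < y) (hr : Cell.rk y - Cell.rk x = 2) :
    (Ioo x y).ncard = 2 := by
  cases x <;> cases y <;> simp only [Cell.rk] at hr <;> norm_num at hr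
  · rename_i a ha
    obtain ⟨x, hx, y, hy, hne, he⟩ := hK.ed a ha
    have h : Ioo (Cell.bot : Cell K) (ed a ha) = {vt x hx, vt y hy} := by
      ext z
      constructor
      · rintro ⟨h1, h2⟩
        have h3 := mono h1
        have h4 := mono h2
        cases z <;> simp only [Cell.rk] at h3 h4 <;> try omega
        rename_i z hz
        have h5 := vt_le_ed.1 h2.le
        rw [he] at h5
        rcases h5 with h5 | h5
        · subst h5; simp
        · rw [mem_singleton_iff] at h5; subst h5; simp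
      · rintro (rfl | rfl)
        · exact ⟨lt_of_le_of_ne bot_le (by rintro ⟨⟩),
            lt_of_le_of_ne (vt_le_ed.2 (by rw [he]; simp)) (by rintro ⟨⟩)⟩
        · exact ⟨lt_of_le_of_ne bot_le (by rintro ⟨⟩),
            lt_of_le_of_ne (vt_le_ed.2 (by rw [he]; simp)) (by rintro ⟨⟩)⟩
    rw [h, ncard_pair]
    intro h
    injection h with h
    exact hne h
  · rename_i x hx b hb
    obtain ⟨e, heb, hxe⟩ := vt_le_fc.1 hxy.le
    obtain ⟨e1, e2, hne, hs⟩ := ncard_eq_two.1 (hK.vf b hb e heb x hxe)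
    have h1 : e1 ∈ {e' | e' ∈ b ∧ x ∈ e'} := by rw [hs]; simp
    have h2 : e2 ∈ {e' | e' ∈ b ∧ x ∈ e'} := by rw [hs]; simp
    have h : Ioo (vt x hx) (fc b hb) = {ed e1 ((hK.fs b hb).1 h1.1), ed e2 ((hK.fs b hb).1 h2.1)} := by
      ext z
      constructor
      · rintro ⟨h1', h2'⟩
        have h3 := mono h1'
        have h4 := mono h2'
        cases z <;> simp only [Cell.rk] at h3 h4 <;> try omega
        rename_i z hz
        have h5 : z ∈ {e' | e' ∈ b ∧ x ∈ e'} := ⟨ed_le_fc.1 h2'.le, vt_le_ed.1 h1'.le⟩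
        rw [hs] at h5
        rcases h5 with h5 | h5
        · subst h5; simp
        · rw [mem_singleton_iff] at h5; subst h5; simp
      · rintro (rfl | rfl)
        · exact ⟨lt_of_le_of_ne (vt_le_ed.2 h1.2) (by rintro ⟨⟩), lt_of_le_of_ne (ed_le_fc.2 h1.1) (by rintro ⟨⟩)⟩
        · exact ⟨lt_of_le_of_ne (vt_le_ed.2 h2.2) (by rintro ⟨⟩), lt_of_le_of_ne (ed_le_fc.2 h2.1) (by rintro ⟨⟩)⟩
    rw [h, ncard_pair]
    intro h
    injection h with h
    exact hne h
  · rename_i a ha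
    obtain ⟨f1, f2, hne, hs⟩ := ncard_eq_two.1 (hK.ef a ha)
    have h1 : f1 ∈ {f | f ∈ K.F ∧ a ∈ f} := by rw [hs]; simp
    have h2 : f2 ∈ {f | f ∈ K.F ∧ a ∈ f} := by rw [hs]; simp
    have h : Ioo (ed a ha) (Cell.top : Cell K) = {fc f1 h1.1, fc f2 h2.1} := by
      ext z
      constructor
      · rintro ⟨h1', h2'⟩
        have h3 := mono h1'
        have h4 := mono h2'
        cases z <;> simp only [Cell.rk] at h3 h4 <;> try omega
        rename_i z hz
        have h5 : z ∈ {f | f ∈ K.F ∧ a ∈ f} := ⟨hz, ed_le_fc.1 h1'.le⟩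
        rw [hs] at h5
        rcases h5 with h5 | h5
        · subst h5; simp
        · rw [mem_singleton_iff] at h5; subst h5; simp
      · rintro (rfl | rfl)
        · exact ⟨lt_of_le_of_ne (ed_le_fc.2 h1.2) (by rintro ⟨⟩), lt_of_le_of_ne le_top (by rintro ⟨⟩)⟩
        · exact ⟨lt_of_le_of_ne (ed_le_fc.2 h2.2) (by rintro ⟨⟩), lt_of_le_of_ne le_top (by rintro ⟨⟩)⟩
    rw [h, ncard_pair]
    intro h
    injection h with h
    exact hne h

/-- the relation of connectivity is symmetric -/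
theorem rsymm {S : Set (Cell K)} {a b : Cell K} (ha : a ∈ S)
    (h : Relation.ReflTransGen (fun c d => d ∈ S ∧ (c ≤ d ∨ d ≤ c)) a b) :
    b ∈ S ∧ Relation.ReflTransGen (fun c d => d ∈ S ∧ (c ≤ d ∨ d ≤ c)) b a := by
  induction h with
  | refl => exact ⟨ha, Relation.ReflTransGen.refl⟩
  | tail _ hst ih => exact ⟨hst.1, Relation.ReflTransGen.head ⟨ih.1, hst.2.symm⟩ ih.2⟩

theorem conn_bf (hK : IsGeo K) (f : Set (Set H3)) (hf : f ∈ K.F) (a b : Cell K) (ha : a ∈ Ioo Cell.bot (fc f hf))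
    (hb : b ∈ Ioo Cell.bot (fc f hf)) :
    Relation.ReflTransGen (fun c d => d ∈ Ioo Cell.bot (fc f hf) ∧ (c ≤ d ∨ d ≤ c)) a b := by
  have edI : ∀ e (he : e ∈ f), (ed e ((hK.fs f hf).1 he) : Cell K) ∈ Ioo Cell.bot (fc f hf) := by
    intro e he
    exact ⟨lt_of_le_of_ne bot_le (by rintro ⟨⟩), lt_of_le_of_ne (ed_le_fc.2 he) (by rintro ⟨⟩)⟩
  have near : ∀ c ∈ Ioo Cell.bot (fc f hf), ∃ e, ∃ he : e ∈ f,
      (c ≤ ed e ((hK.fs f hf).1 he) ∨ ed e ((hK.fs f hf).1 he) ≤ c) := by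
    rintro c ⟨h1, h2⟩
    have h3 := mono h1
    have h4 := mono h2
    cases c <;> simp only [Cell.rk] at h3 h4 <;> try omega
    · obtain ⟨e, he, hx⟩ := vt_le_fc.1 h2.le
      exact ⟨e, he, Or.inl (vt_le_ed.2 hx)⟩
    · exact ⟨_, ed_le_fc.1 h2.le, Or.inl le_rfl⟩
  have mid : ∀ e (he : e ∈ f) e' (he' : e' ∈ f), Relation.ReflTransGen
      (fun c d => d ∈ Ioo Cell.bot (fc f hf) ∧ (c ≤ d ∨ d ≤ c)) (ed e ((hK.fs f hf).1 he))
      (ed e' ((hK.fs f hf).1 he')) := by
    intro e he e' he'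
    have h := hK.cf f hf e he e' he'
    have key : ∃ he' : e' ∈ f, Relation.ReflTransGen
      (fun c d => d ∈ Ioo Cell.bot (fc f hf) ∧ (c ≤ d ∨ d ≤ c)) (ed e ((hK.fs f hf).1 he))
      (ed e' ((hK.fs f hf).1 he')) := by
      clear he'
      induction h with
      | refl => exact ⟨he, Relation.ReflTransGen.refl⟩
      | @tail e1 e2 _ hst ih =>
        obtain ⟨h1, ih⟩ := ih
        obtain ⟨h2, x, hx1, hx2⟩ := hst
        refine ⟨h2, ?_⟩
        have hxV : x ∈ K.V := by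
          obtain ⟨u, hu, w, hw, -, he1⟩ := hK.ed e1 ((hK.fs f hf).1 h1)
          rw [he1] at hx1
          rcases hx1 with rfl | hx1
          · exact hu
          · rw [mem_singleton_iff] at hx1; subst hx1; exact hw
        refine (ih.tail (c := vt x hxV) ⟨⟨lt_of_le_of_ne bot_le (by rintro ⟨⟩),
          lt_of_le_of_ne (vt_le_fc.2 ⟨e1, h1, hx1⟩) (by rintro ⟨⟩)⟩, Or.inr (vt_le_ed.2 hx1)⟩).tail
          ⟨edI e2 h2, Or.inl (vt_le_ed.2 hx2)⟩
    exact key.2
  obtain ⟨e, he, h1⟩ := near a ha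
  obtain ⟨e', he', h2⟩ := near b hb
  exact ((Relation.ReflTransGen.single ⟨edI e he, h1⟩).trans (mid e he e' he')).tail ⟨hb, h2.symm⟩

theorem conn_vt (hK : IsGeo K) (x : H3) (hx : x ∈ K.V) (a b : Cell K) (ha : a ∈ Ioo (vt x hx) Cell.top)
    (hb : b ∈ Ioo (vt x hx) Cell.top) :
    Relation.ReflTransGen (fun c d => d ∈ Ioo (vt x hx) Cell.top ∧ (c ≤ d ∨ d ≤ c)) a b := by
  have edI : ∀ e (he : e ∈ K.E) (_ : x ∈ e), (ed e he : Cell K) ∈ Ioo (vt x hx) Cell.top := by
    intro e he hxe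
    exact ⟨lt_of_le_of_ne (vt_le_ed.2 hxe) (by rintro ⟨⟩), lt_of_le_of_ne le_top (by rintro ⟨⟩)⟩
  have near : ∀ c ∈ Ioo (vt x hx) (Cell.top : Cell K), ∃ e, ∃ he : e ∈ K.E, x ∈ e ∧
      (c ≤ ed e he ∨ ed e he ≤ c) := by
    rintro c ⟨h1, h2⟩
    have h3 := mono h1
    have h4 := mono h2
    cases c <;> simp only [Cell.rk] at h3 h4 <;> try omega
    · exact ⟨_, _, vt_le_ed.1 h1.le, Or.inl le_rfl⟩
    · rename_i b hb
      obtain ⟨e, he, hxe⟩ := vt_le_fc.1 h1.le
      exact ⟨e, (hK.fs b hb).1 he, hxe, Or.inr (ed_le_fc.2 he)⟩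
  have mid : ∀ e (he : e ∈ K.E) e' (he' : e' ∈ K.E), x ∈ e → x ∈ e' → Relation.ReflTransGen
      (fun c d => d ∈ Ioo (vt x hx) Cell.top ∧ (c ≤ d ∨ d ≤ c)) (ed e he) (ed e' he') := by
    intro e he e' he' hxe hxe'
    have h := hK.cv x hx e he hxe e' he' hxe'
    have key : ∃ he' : e' ∈ K.E, x ∈ e' ∧ Relation.ReflTransGen
      (fun c d => d ∈ Ioo (vt x hx) Cell.top ∧ (c ≤ d ∨ d ≤ c)) (ed e he) (ed e' he') := by
      clear he' hxe'
      induction h with
      | refl => exact ⟨he, hxe, Relation.ReflTransGen.refl⟩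
      | @tail e1 e2 _ hst ih =>
        obtain ⟨h1, hx1, ih⟩ := ih
        obtain ⟨hx2, f, hf, hf1, hf2⟩ := hst
        refine ⟨(hK.fs f hf).1 hf2, hx2, ?_⟩
        refine (ih.tail (c := fc f hf) ⟨⟨lt_of_le_of_ne (vt_le_fc.2 ⟨e1, hf1, hx1⟩) (by rintro ⟨⟩),
          lt_of_le_of_ne le_top (by rintro ⟨⟩)⟩, Or.inl (ed_le_fc.2 hf1)⟩).tail
          ⟨edI e2 _ hx2, Or.inr (ed_le_fc.2 hf2)⟩
    exact key.2.2
  obtain ⟨e, he, hxe, h1⟩ := near a ha
  obtain ⟨e', he', hxe', h2⟩ := near b hb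
  exact ((Relation.ReflTransGen.single ⟨edI e he hxe, h1⟩).trans (mid e he e' he' hxe hxe')).tail ⟨hb, h2.symm⟩

theorem conn_bt (hK : IsGeo K) (a b : Cell K) (ha : a ∈ Ioo Cell.bot Cell.top)
    (hb : b ∈ Ioo (Cell.bot : Cell K) Cell.top) :
    Relation.ReflTransGen (fun c d => d ∈ Ioo (Cell.bot : Cell K) Cell.top ∧ (c ≤ d ∨ d ≤ c)) a b := by
  have vI : ∀ x (hx : x ∈ K.V), (vt x hx : Cell K) ∈ Ioo Cell.bot Cell.top := by
    intro x hx
    exact ⟨lt_of_le_of_ne bot_le (by rintro ⟨⟩), lt_of_le_of_ne le_top (by rintro ⟨⟩)⟩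
  have near : ∀ c ∈ Ioo (Cell.bot : Cell K) (Cell.top : Cell K), ∃ x, ∃ hx : x ∈ K.V,
      (c ≤ vt x hx ∨ vt x hx ≤ c) := by
    rintro c ⟨h1, h2⟩
    have h3 := mono h1
    have h4 := mono h2
    cases c <;> simp only [Cell.rk] at h3 h4 <;> try omega
    · exact ⟨_, _, Or.inl le_rfl⟩
    · rename_i e he
      obtain ⟨x, hx, y, hy, -, hee⟩ := hK.ed e he
      exact ⟨x, hx, Or.inr (vt_le_ed.2 (by rw [hee]; simp))⟩
    · rename_i b hb
      obtain ⟨hb1, e, heb⟩ := hK.fs b hb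
      obtain ⟨x, hx, y, hy, -, hee⟩ := hK.ed e (hb1 heb)
      exact ⟨x, hx, Or.inr (vt_le_fc.2 ⟨e, heb, by rw [hee]; simp⟩)⟩
  have mid : ∀ x (hx : x ∈ K.V) y (hy : y ∈ K.V), Relation.ReflTransGen
      (fun c d => d ∈ Ioo (Cell.bot : Cell K) Cell.top ∧ (c ≤ d ∨ d ≤ c)) (vt x hx) (vt y hy) := by
    intro x hx y hy
    have h := hK.cc x hx y hy
    have key : ∃ hy : y ∈ K.V, Relation.ReflTransGen
      (fun c d => d ∈ Ioo (Cell.bot : Cell K) Cell.top ∧ (c ≤ d ∨ d ≤ c)) (vt x hx) (vt y hy) := by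
      clear hy
      induction h with
      | refl => exact ⟨hx, Relation.ReflTransGen.refl⟩
      | @tail z w _ hst ih =>
        obtain ⟨hz, ih⟩ := ih
        have hw : w ∈ K.V := by
          obtain ⟨u, hu, u', hu', -, hee⟩ := hK.ed _ hst
          have : w ∈ ({z, w} : Set H3) := by simp
          rw [hee] at this
          rcases this with rfl | this
          · exact hu
          · rw [mem_singleton_iff] at this; subst this; exact hu'
        refine ⟨hw, ?_⟩
        refine (ih.tail (c := ed {z, w} hst) ⟨⟨lt_of_le_of_ne bot_le (by rintro ⟨⟩),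
          lt_of_le_of_ne le_top (by rintro ⟨⟩)⟩, Or.inl (vt_le_ed.2 (by simp))⟩).tail
          ⟨vI w hw, Or.inr (vt_le_ed.2 (by simp))⟩
    exact key.2
  obtain ⟨x, hx, h1⟩ := near a ha
  obtain ⟨y, hy, h2⟩ := near b hb
  exact ((Relation.ReflTransGen.single ⟨vI x hx, h1⟩).trans (mid x hx y hy)).tail ⟨hb, h2.symm⟩

theorem im1_ed (hK : IsGeo K) (a : Set H3) (ha : a ∈ K.E) : im1 (Cell.rk (K := K)) (Cell.real o) (ed a ha) = a := by
  ext x
  constructor
  · rintro ⟨v, ⟨hv, hve⟩, rfl⟩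
    cases v <;> simp only [Cell.rk] at hv <;> norm_num at hv
    exact vt_le_ed.1 hve.le
  · intro hx
    have hxV : x ∈ K.V := by
      obtain ⟨u, hu, u', hu', -, hee⟩ := hK.ed _ ha
      rw [hee] at hx
      rcases hx with rfl | hx
      · exact hu
      · rw [mem_singleton_iff] at hx; subst hx; exact hu'
    exact ⟨vt x hxV, ⟨rfl, lt_of_le_of_ne (vt_le_ed.2 hx) (by rintro ⟨⟩)⟩, rfl⟩

theorem im2_fc (hK : IsGeo K) (b : Set (Set H3)) (hb : b ∈ K.F) :
    im2 (Cell.rk (K := K)) (Cell.real o) (fc b hb) = b := by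
  ext x
  constructor
  · rintro ⟨v, ⟨hv, hve⟩, rfl⟩
    cases v <;> simp only [Cell.rk] at hv <;> norm_num at hv
    rw [im1_ed hK]
    exact ed_le_fc.1 hve.le
  · intro hx
    have hxE : x ∈ K.E := (hK.fs b hb).1 hx
    exact ⟨ed x hxE, ⟨rfl, lt_of_le_of_ne (ed_le_fc.2 hx) (by rintro ⟨⟩)⟩, im1_ed hK _ _⟩

end

theorem ld : T_LD := by
  intro K hK
  constructor
  · refine ⟨mono, rfl, rfl, ?_, diamond hK, ?_⟩
    · intro C i hi
      have hu : ∀ x y : Cell K, (x ∈ C ∧ Cell.rk x = i) → (y ∈ C ∧ Cell.rk y = i) → y = x :=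
        fun x y hx hy => flag_eq C hy.1 hx.1 (hy.2.trans hx.2.symm)
      simp only [mem_insert_iff, mem_singleton_iff] at hi
      rcases hi with rfl | rfl | rfl | rfl | rfl
      · have h : (⊥ : Cell K) ∈ C ∧ Cell.rk (⊥ : Cell K) = -1 := ⟨C.bot_mem, rfl⟩
        exact ⟨_, h, fun y hy => hu _ _ h hy⟩
      · obtain ⟨x, hx, hC⟩ := flag_vt hK C
        have h : (vt x hx : Cell K) ∈ C ∧ Cell.rk (vt x hx : Cell K) = 0 := ⟨hC, rfl⟩
        exact ⟨_, h, fun y hy => hu _ _ h hy⟩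
      · obtain ⟨x, hx, hC⟩ := flag_ed hK C
        have h : (ed x hx : Cell K) ∈ C ∧ Cell.rk (ed x hx : Cell K) = 1 := ⟨hC, rfl⟩
        exact ⟨_, h, fun y hy => hu _ _ h hy⟩
      · obtain ⟨x, hx, hC⟩ := flag_fc hK C
        have h : (fc x hx : Cell K) ∈ C ∧ Cell.rk (fc x hx : Cell K) = 2 := ⟨hC, rfl⟩
        exact ⟨_, h, fun y hy => hu _ _ h hy⟩
      · have h : (⊤ : Cell K) ∈ C ∧ Cell.rk (⊤ : Cell K) = 3 := ⟨C.top_mem, rfl⟩
        exact ⟨_, h, fun y hy => hu _ _ h hy⟩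
    · intro x y hxy hr a ha b hb
      cases x <;> cases y <;> simp only [Cell.rk] at hr <;> norm_num at hr
      · exact conn_bf hK _ _ a b ha hb
      · exact conn_bt hK a b ha hb
      · exact conn_vt hK _ _ a b ha hb
  · constructor
    · intro v hv
      cases v <;> simp only [Cell.rk] at hv <;> norm_num at hv
      rename_i x hx
      obtain ⟨ε, hε, h⟩ := hK.dis x hx
      refine ⟨ε, hε, ?_⟩
      intro w hw hne
      cases w <;> simp only [Cell.rk] at hw <;> norm_num at hw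
      rename_i y hy
      exact h y hy hne
    · intro v w hv hw h
      cases v <;> simp only [Cell.rk] at hv <;> norm_num at hv
      cases w <;> simp only [Cell.rk] at hw <;> norm_num at hw
      have h' := h
      simp only [Cell.real] at h'
      subst h'
      rfl
    · intro v w hv hw h
      cases v <;> simp only [Cell.rk] at hv <;> norm_num at hv
      cases w <;> simp only [Cell.rk] at hw <;> norm_num at hw
      rw [im1_ed hK, im1_ed hK] at h
      subst h
      rfl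
    · intro v w hv hw h
      cases v <;> simp only [Cell.rk] at hv <;> norm_num at hv
      cases w <;> simp only [Cell.rk] at hw <;> norm_num at hw
      rw [im2_fc hK, im2_fc hK] at h
      subst h
      rfl

end Pool.Agent.H83.CP.LD
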