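import Mathlib
import Pool.Agent.H57.CP.Targets

/-!
# Literal polyhedra give polyhedra in set form (module LA)
-/

open Set

namespace Pool.Agent.H83.CP

open Pool.Agent.H57.CP

section

variable {P : Type} [PartialOrder P] [BoundedOrder P] {rk : P → ℤ} {β : P → H3}

theorem rk_ge (hp : IsPolyhedron P rk) (x : P) : -1 ≤ rk x := by
  have := hp.mono.monotone (bot_le : ⊥ ≤ x)
  rwa [hp.bot] at this

theorem rk_le (hp : IsPolyhedron P rk) (x : P) : rk x ≤ 3 := by
  have := hp.mono.monotone (le_top : x ≤ ⊤)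
  rwa [hp.top] at this

theorem blt (hp : IsPolyhedron P rk) {x : P} (h : -1 < rk x) : ⊥ < x := by
  rw [bot_lt_iff_ne_bot]
  rintro rfl
  rw [hp.bot] at h
  exact lt_irrefl _ h

theorem ltt (hp : IsPolyhedron P rk) {x : P} (h : rk x < 3) : x < ⊤ := by
  rw [lt_top_iff_ne_top]
  rintro rfl
  rw [hp.top] at h
  exact lt_irrefl _ h

theorem comp_lt (hp : IsPolyhedron P rk) {x y : P} (h : x ≤ y ∨ y ≤ x) (hr : rk x < rk y) : x < y := by
  rcases h with h | h
  · exact lt_of_le_of_ne h (by rintro rfl; exact lt_irrefl _ hr)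
  · exact absurd (hp.mono.monotone h) (not_le.2 hr)

theorem comp_eq (hp : IsPolyhedron P rk) {x y : P} (h : x ≤ y ∨ y ≤ x) (hr : rk x = rk y) : x = y := by
  rcases h with h | h
  · rcases eq_or_lt_of_le h with h | h
    · exact h
    · exact absurd (hp.mono h) (by rw [hr]; exact lt_irrefl _)
  · rcases eq_or_lt_of_le h with h | h
    · exact h.symm
    · exact absurd (hp.mono h) (by rw [hr]; exact lt_irrefl _)

theorem mid (hp : IsPolyhedron P rk) {x y : P} (h : x < y) (k : ℤ) (h1 : rk x < k) (h2 : k < rk y) :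
    ∃ z, rk z = k ∧ x < z ∧ z < y := by
  have hc : IsChain (· ≤ ·) ({x, y} : Set P) := by
    intro a ha b hb _
    rcases ha with rfl | rfl <;> rcases hb with rfl | rfl
    · exact Or.inl le_rfl
    · exact Or.inl h.le
    · exact Or.inr h.le
    · exact Or.inl le_rfl
  obtain ⟨C, hC⟩ := hc.exists_subset_flag
  have hk : k ∈ ({-1, 0, 1, 2, 3} : Set ℤ) := by
    have := rk_ge hp x
    have := rk_le hp y
    simp only [mem_insert_iff, mem_singleton_iff]
    omega
  obtain ⟨z, ⟨hz, hzk⟩, -⟩ := hp.flags C k hk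
  have hx : x ∈ C := hC (by simp)
  have hy : y ∈ C := hC (by simp)
  refine ⟨z, hzk, comp_lt hp ?_ (by omega), comp_lt hp ?_ (by omega)⟩
  · exact C.le_or_le hx hz
  · exact C.le_or_le hz hy

theorem verts (hp : IsPolyhedron P rk) {e : P} (he : rk e = 1) : ∃ v w, rk v = 0 ∧ rk w = 0 ∧ v ≠ w ∧ v < e ∧
    w < e ∧ ∀ u, rk u = 0 → u < e → u = v ∨ u = w := by
  have h0 : ⊥ < e := blt hp (by omega)
  have h := hp.diamond ⊥ e h0 (by rw [hp.bot]; omega)
  obtain ⟨v, w, hvw, hs⟩ := ncard_eq_two.1 h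
  have hv : v ∈ Ioo ⊥ e := by rw [hs]; simp
  have hw : w ∈ Ioo ⊥ e := by rw [hs]; simp
  have rv : ∀ u ∈ Ioo ⊥ e, rk u = 0 := by
    intro u hu
    have h1 := hp.mono hu.1
    have h2 := hp.mono hu.2
    rw [hp.bot] at h1
    omega
  refine ⟨v, w, rv v hv, rv w hw, hvw, hv.2, hw.2, ?_⟩
  intro u hu hue
  have : u ∈ Ioo ⊥ e := ⟨blt hp (by omega), hue⟩
  rw [hs] at this
  simpa using this

omit [BoundedOrder P] in
theorem mem_im1 (hf : IsFaithful rk β) {v e : P} (hv : rk v = 0) : β v ∈ im1 rk β e ↔ v < e := by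
  constructor
  · rintro ⟨w, ⟨hw, hwe⟩, h⟩
    rwa [← hf.inj0 w v hw hv h]
  · intro h
    exact ⟨v, ⟨hv, h⟩, rfl⟩

omit [BoundedOrder P] in
theorem mem_im2 (hf : IsFaithful rk β) {e f : P} (he : rk e = 1) : im1 rk β e ∈ im2 rk β f ↔ e < f := by
  constructor
  · rintro ⟨w, ⟨hw, hwe⟩, h⟩
    rwa [← hf.inj1 w e hw he h]
  · intro h
    exact ⟨e, ⟨he, h⟩, rfl⟩

theorem la_cf (hp : IsPolyhedron P rk) (hf : IsFaithful rk β) (f a b : P) (hfr : rk f = 2) (ha : rk a = 1)
    (hb : rk b = 1) (haf : a < f) (hbf : b < f) :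
    Relation.ReflTransGen (fun x y => y ∈ im2 rk β f ∧ (x ∩ y).Nonempty) (im1 rk β a) (im1 rk β b) := by
  have h := hp.conn ⊥ f (blt hp (by omega)) (by rw [hp.bot]; omega) a ⟨blt hp (by omega), haf⟩ b
    ⟨blt hp (by omega), hbf⟩
  have key : b ∈ Ioo ⊥ f ∧ ∀ d, rk d = 1 → d < f → b ≤ d →
      Relation.ReflTransGen (fun x y => y ∈ im2 rk β f ∧ (x ∩ y).Nonempty) (im1 rk β a) (im1 rk β d) := by
    clear hb hbf
    induction h with
    | refl =>
      refine ⟨⟨blt hp (by omega), haf⟩, ?_⟩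
      intro d hd _ had
      rw [comp_eq hp (Or.inl had) (by omega)]
    | @tail c c' _ hstep ih =>
      obtain ⟨hc', hcomp⟩ := hstep
      obtain ⟨hc, ih⟩ := ih
      refine ⟨hc', ?_⟩
      intro d hd hdf hcd
      rcases hcomp with h | h
      · exact ih d hd hdf (h.trans hcd)
      · rcases eq_or_lt_of_le h with h | h
        · subst h
          exact ih d hd hdf hcd
        · have h1 := hp.mono h
          have h2 := hp.mono hc.2
          have h3 := hp.mono hc'.1
          rw [hp.bot] at h3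
          have hcr : rk c = 1 := by omega
          have hcr' : rk c' = 0 := by omega
          refine (ih c hcr hc.2 le_rfl).tail ⟨(mem_im2 hf hd).2 hdf, β c', ?_, ?_⟩
          · exact (mem_im1 hf hcr').2 h
          · exact (mem_im1 hf hcr').2 (comp_lt hp (Or.inl hcd) (by omega))
  exact key.2 b hb hbf le_rfl

theorem la_cv (hp : IsPolyhedron P rk) (hf : IsFaithful rk β) (v a b : P) (hv : rk v = 0) (ha : rk a = 1)
    (hb : rk b = 1) (hva : v < a) (hvb : v < b) :
    Relation.ReflTransGen (fun x y => β v ∈ y ∧ ∃ f ∈ (Kof rk β).F, x ∈ f ∧ y ∈ f) (im1 rk β a) (im1 rk β b) := by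
  have h := hp.conn v ⊤ (ltt hp (by omega)) (by rw [hp.top]; omega) a ⟨hva, ltt hp (by omega)⟩ b
    ⟨hvb, ltt hp (by omega)⟩
  have key : b ∈ Ioo v ⊤ ∧ ∀ d, rk d = 1 → v < d → d ≤ b →
      Relation.ReflTransGen (fun x y => β v ∈ y ∧ ∃ f ∈ (Kof rk β).F, x ∈ f ∧ y ∈ f) (im1 rk β a) (im1 rk β d) := by
    clear hb hvb
    induction h with
    | refl =>
      refine ⟨⟨hva, ltt hp (by omega)⟩, ?_⟩
      intro d hd _ had
      rw [comp_eq hp (Or.inl had) (by omega)]
    | @tail c c' _ hstep ih =>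
      obtain ⟨hc', hcomp⟩ := hstep
      obtain ⟨hc, ih⟩ := ih
      refine ⟨hc', ?_⟩
      intro d hd hvd hcd
      rcases hcomp with h | h
      · rcases eq_or_lt_of_le h with h | h
        · subst h
          exact ih d hd hvd hcd
        · have h1 := hp.mono h
          have h2 := hp.mono hc.1
          have h3 := hp.mono hc'.2
          rw [hp.top] at h3
          have hcr : rk c = 1 := by omega
          have hcr' : rk c' = 2 := by omega
          refine (ih c hcr hc.1 le_rfl).tail ⟨(mem_im1 hf hv).2 hvd, im2 rk β c', ⟨c', hcr', rfl⟩, ?_, ?_⟩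
          · exact (mem_im2 hf hcr).2 h
          · exact (mem_im2 hf hd).2 (comp_lt hp (Or.inl hcd) (by omega))
      · exact ih d hd hvd (hcd.trans h)
  exact key.2 b hb hvb le_rfl

/-- two vertices of an edge -/
theorem la_c1 (hp : IsPolyhedron P rk) (e v w : P) (he : rk e = 1) (hv : rk v = 0)
    (hw : rk w = 0) (hve : v < e) (hwe : w < e) :
    Relation.ReflTransGen (fun a b => ({a, b} : Set H3) ∈ (Kof rk β).E) (β v) (β w) := by
  by_cases hvw : v = w
  · subst hvw; exact Relation.ReflTransGen.refl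
  · apply Relation.ReflTransGen.single
    refine ⟨e, he, ?_⟩
    obtain ⟨x, y, hx, hy, hxy, hxe, hye, hu⟩ := verts hp he
    have h : ∀ u, rk u = 0 → u < e → u = v ∨ u = w := by
      intro u hu0 hue
      rcases hu v hv hve with h1 | h1 <;> rcases hu w hw hwe with h2 | h2 <;>
        rcases hu u hu0 hue with h3 | h3 <;> subst h1 <;> subst h2 <;> subst h3 <;> simp_all
    ext z
    simp only [im1, mem_image, mem_ofPred_eq, mem_insert_iff, mem_singleton_iff]
    constructor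
    · rintro ⟨u, ⟨hu0, hue⟩, rfl⟩
      rcases h u hu0 hue with rfl | rfl
      · exact Or.inl rfl
      · exact Or.inr rfl
    · rintro (rfl | rfl)
      · exact ⟨v, ⟨hv, hve⟩, rfl⟩
      · exact ⟨w, ⟨hw, hwe⟩, rfl⟩

/-- two vertices of a face -/
theorem la_c2 (hp : IsPolyhedron P rk) (f v w : P) (hfr : rk f = 2) (hv : rk v = 0)
    (hw : rk w = 0) (hvf : v < f) (hwf : w < f) :
    Relation.ReflTransGen (fun a b => ({a, b} : Set H3) ∈ (Kof rk β).E) (β v) (β w) := by
  have h := hp.conn ⊥ f (blt hp (by omega)) (by rw [hp.bot]; omega) v ⟨blt hp (by omega), hvf⟩ w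
    ⟨blt hp (by omega), hwf⟩
  have key : w ∈ Ioo ⊥ f ∧ ∀ u, rk u = 0 → u ≤ w →
      Relation.ReflTransGen (fun a b => ({a, b} : Set H3) ∈ (Kof rk β).E) (β v) (β u) := by
    clear hw hwf
    induction h with
    | refl =>
      refine ⟨⟨blt hp (by omega), hvf⟩, ?_⟩
      intro u hu huv
      rw [comp_eq hp (Or.inl huv) (by omega)]
    | @tail c c' _ hstep ih =>
      obtain ⟨hc', hcomp⟩ := hstep
      obtain ⟨hc, ih⟩ := ih
      refine ⟨hc', ?_⟩
      intro u hu huc
      rcases hcomp with h | h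
      · rcases eq_or_lt_of_le h with h | h
        · subst h
          exact ih u hu huc
        · have h1 := hp.mono h
          have h2 := hp.mono hc.1
          have h3 := hp.mono hc'.2
          rw [hp.bot] at h2
          have hcr : rk c = 0 := by omega
          have hcr' : rk c' = 1 := by omega
          exact (ih c hcr le_rfl).trans (la_c1 hp c' c u hcr' hcr hu h (comp_lt hp (Or.inl huc) (by omega)))
      · exact ih u hu (huc.trans h)
  exact key.2 w hw le_rfl

theorem la_cc (hp : IsPolyhedron P rk) (v w : P) (hv : rk v = 0) (hw : rk w = 0) :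
    Relation.ReflTransGen (fun a b => ({a, b} : Set H3) ∈ (Kof rk β).E) (β v) (β w) := by
  have h := hp.conn ⊥ ⊤ (by rw [bot_lt_iff_ne_bot]; intro h; have := hp.top; rw [h, hp.bot] at this; omega)
    (by rw [hp.bot, hp.top]; norm_num) v ⟨blt hp (by omega), ltt hp (by omega)⟩ w
    ⟨blt hp (by omega), ltt hp (by omega)⟩
  have key : w ∈ Ioo ⊥ ⊤ ∧ ∀ u, rk u = 0 → u ≤ w →
      Relation.ReflTransGen (fun a b => ({a, b} : Set H3) ∈ (Kof rk β).E) (β v) (β u) := by
    clear hw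
    induction h with
    | refl =>
      refine ⟨⟨blt hp (by omega), ltt hp (by omega)⟩, ?_⟩
      intro u hu huv
      rw [comp_eq hp (Or.inl huv) (by omega)]
    | @tail c c' _ hstep ih =>
      obtain ⟨hc', hcomp⟩ := hstep
      obtain ⟨hc, ih⟩ := ih
      refine ⟨hc', ?_⟩
      intro u hu huc
      rcases hcomp with h | h
      · rcases eq_or_lt_of_le h with h | h
        · subst h
          exact ih u hu huc
        · have h1 := hp.mono h
          have h2 := hp.mono hc.1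
          have h3 := hp.mono hc'.2
          rw [hp.bot] at h2
          rw [hp.top] at h3
          obtain ⟨x, hx, hxc⟩ : ∃ x, rk x = 0 ∧ x ≤ c := by
            by_cases h0 : rk c = 0
            · exact ⟨c, h0, le_rfl⟩
            · obtain ⟨x, hx, -, hx2⟩ := mid hp hc.1 0 (by rw [hp.bot]; norm_num) (by omega)
              exact ⟨x, hx, hx2.le⟩
          refine (ih x hx hxc).trans ?_
          have hxc' : x < c' := lt_of_le_of_lt hxc h
          have huc' : u < c' := comp_lt hp (Or.inl huc) (by omega)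
          by_cases h5 : rk c' = 1
          · exact la_c1 hp c' x u h5 hx hu hxc' huc'
          · exact la_c2 hp c' x u (by omega) hx hu hxc' huc'
      · exact ih u hu (huc.trans h)
  exact key.2 w hw le_rfl

end

theorem la : T_LA := by
  intro P _ _ rk β hp hf
  constructor
  · obtain ⟨z, hz, -, -⟩ := mid hp (x := (⊥ : P)) (y := ⊤)
      (by rw [bot_lt_iff_ne_bot]; intro h; have := hp.top; rw [h, hp.bot] at this; omega) 0
      (by rw [hp.bot]; norm_num) (by rw [hp.top]; norm_num)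
    exact ⟨β z, z, hz, rfl⟩
  · rintro _ ⟨e, he, rfl⟩
    obtain ⟨v, w, hv, hw, hvw, hve, hwe, hu⟩ := verts hp he
    refine ⟨β v, ⟨v, hv, rfl⟩, β w, ⟨w, hw, rfl⟩, fun h => hvw (hf.inj0 v w hv hw h), ?_⟩
    ext z
    simp only [im1, mem_image, mem_ofPred_eq, mem_insert_iff, mem_singleton_iff]
    constructor
    · rintro ⟨u, ⟨hu0, hue⟩, rfl⟩
      rcases hu u hu0 hue with rfl | rfl
      · exact Or.inl rfl
      · exact Or.inr rfl
    · rintro (rfl | rfl)
      · exact ⟨v, ⟨hv, hve⟩, rfl⟩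
      · exact ⟨w, ⟨hw, hwe⟩, rfl⟩
  · rintro _ ⟨f, hfr, rfl⟩
    refine ⟨?_, ?_⟩
    · rintro _ ⟨e, ⟨he, _⟩, rfl⟩
      exact ⟨e, he, rfl⟩
    · have hfr' : rk f = 2 := hfr
      obtain ⟨z, hz, -, hzf⟩ := mid hp (blt hp (x := f) (by omega)) 1 (by rw [hp.bot]; norm_num) (by omega)
      exact ⟨im1 rk β z, z, ⟨hz, hzf⟩, rfl⟩
  · rintro _ ⟨v, hv, rfl⟩
    have hv' : rk v = 0 := hv
    obtain ⟨z, hz, hz1, -⟩ := mid hp (ltt hp (x := v) (by omega)) 1 (by omega) (by rw [hp.top]; norm_num)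
    exact ⟨im1 rk β z, ⟨z, hz, rfl⟩, (mem_im1 hf hv').2 hz1⟩
  · rintro _ ⟨e, he, rfl⟩
    have he' : rk e = 1 := he
    have h1 : {f | f ∈ (Kof rk β).F ∧ im1 rk β e ∈ f} = im2 rk β '' (Ioo e ⊤) := by
      ext f
      constructor
      · rintro ⟨⟨f', hf', rfl⟩, h⟩
        have hf'' : rk f' = 2 := hf'
        exact ⟨f', ⟨(mem_im2 hf he').1 h, ltt hp (by omega)⟩, rfl⟩
      · rintro ⟨f', ⟨h1, h2⟩, rfl⟩
        have h3 := hp.mono h1
        have h4 := hp.mono h2
        rw [hp.top] at h4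
        exact ⟨⟨f', by show rk f' = 2; omega, rfl⟩, (mem_im2 hf he').2 h1⟩
    rw [h1, ncard_image_of_injOn]
    · exact hp.diamond e ⊤ (ltt hp (by omega)) (by rw [hp.top]; omega)
    · rintro a ⟨ha1, ha2⟩ b ⟨hb1, hb2⟩ hab
      have h3 := hp.mono ha1
      have h4 := hp.mono ha2
      have h5 := hp.mono hb1
      have h6 := hp.mono hb2
      rw [hp.top] at h4 h6
      exact hf.inj2 a b (by omega) (by omega) hab
  · rintro _ ⟨f, hfr, rfl⟩ _ ⟨e, ⟨he, hef⟩, rfl⟩ _ ⟨v, ⟨hv, hve⟩, rfl⟩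
    have hfr' : rk f = 2 := hfr
    have hvf : v < f := hve.trans hef
    have h1 : {e' | e' ∈ im2 rk β f ∧ β v ∈ e'} = im1 rk β '' (Ioo v f) := by
      ext x
      constructor
      · rintro ⟨⟨e', ⟨he', hef'⟩, rfl⟩, h⟩
        exact ⟨e', ⟨(mem_im1 hf hv).1 h, hef'⟩, rfl⟩
      · rintro ⟨e', ⟨h1, h2⟩, rfl⟩
        have h3 := hp.mono h1
        have h4 := hp.mono h2
        exact ⟨⟨e', ⟨by show rk e' = 1; omega, h2⟩, rfl⟩, (mem_im1 hf hv).2 h1⟩
    rw [h1, ncard_image_of_injOn]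
    · exact hp.diamond v f hvf (by omega)
    · rintro a ⟨ha1, ha2⟩ b ⟨hb1, hb2⟩ hab
      have h3 := hp.mono ha1
      have h4 := hp.mono ha2
      have h5 := hp.mono hb1
      have h6 := hp.mono hb2
      exact hf.inj1 a b (by omega) (by omega) hab
  · rintro _ ⟨f, hfr, rfl⟩ _ ⟨a, ⟨ha, haf⟩, rfl⟩ _ ⟨b, ⟨hb, hbf⟩, rfl⟩
    exact la_cf hp hf f a b hfr ha hb haf hbf
  · rintro _ ⟨v, hv, rfl⟩ _ ⟨a, ha, rfl⟩ hva _ ⟨b, hb, rfl⟩ hvb
    exact la_cv hp hf v a b hv ha hb ((mem_im1 hf hv).1 hva) ((mem_im1 hf hv).1 hvb)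
  · rintro _ ⟨v, hv, rfl⟩ _ ⟨w, hw, rfl⟩
    exact la_cc hp v w hv hw
  · rintro _ ⟨v, hv, rfl⟩
    obtain ⟨ε, hε, h⟩ := hf.discrete v hv
    refine ⟨ε, hε, ?_⟩
    rintro _ ⟨w, hw, rfl⟩ hne
    exact h w hw hne

end Pool.Agent.H83.CP
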