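import Mathlib
import Pool.Agent.H57.CP.Targets

/-!
# At least three edges at a vertex (module NCF)
-/

open Set

namespace Pool.Agent.H83.CP.NCF

open Pool.Agent.H57.CP

theorem zadd (R : Equiv.Perm H3) (m n : ℤ) (y : H3) : (R ^ m) ((R ^ n) y) = (R ^ (m + n)) y := by
  rw [zpow_add]; rfl

theorem ncf (_ : T_SYG) : T_NCF := by
  intro K v v' S T h hS
  have hV : K.V = Orb v S T := by rw [h.eqK]; rfl
  have gS : S ∈ Gr S T := Subgroup.subset_closure (by simp)
  have gT : T ∈ Gr S T := Subgroup.subset_closure (by simp)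
  have cl : ∀ g ∈ Gr S T, ∀ x ∈ K.V, g x ∈ K.V := by
    intro g hg x hx
    rw [hV] at hx ⊢
    obtain ⟨k, hk, rfl⟩ := hx
    exact ⟨g * k, mul_mem hg hk, rfl⟩
  have vV : v ∈ K.V := by rw [hV]; exact ⟨1, one_mem _, rfl⟩
  have vV' : v' ∈ K.V := by rw [hV]; exact ⟨T, gT, h.Tv.symm⟩
  have S2 : ∀ x ∈ K.V, S (S x) = x := by
    intro x hx
    have := h.Sm 2 (by rw [pow_two]; exact hS) x hx
    rwa [pow_two] at this
  have gP : T * S⁻¹ ∈ Gr S T := mul_mem gT (inv_mem gS)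
  have base : ∀ y ∈ K.V, T ((T * S⁻¹) y) = (T * S⁻¹)⁻¹ (T y) := by
    intro y hy
    have h1 : S⁻¹ y = S y := by
      rw [Equiv.Perm.inv_eq_iff_eq]
      exact (S2 y hy).symm
    rw [mul_inv_rev, inv_inv, Equiv.Perm.mul_apply, Equiv.Perm.mul_apply, h1,
      h.TT _ (cl S gS y hy)]
    congr 1
    exact (T.symm_apply_apply y).symm
  obtain ⟨R, hR⟩ : ∃ R, R = T * S⁻¹ := ⟨_, rfl⟩
  rw [← hR] at gP base
  have nat : ∀ n : ℕ, ∀ x ∈ K.V, T ((R ^ (n : ℤ)) x) = (R ^ (-(n : ℤ))) (T x) := by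
    intro n
    induction n with
    | zero => intro x _; simp
    | succ n ih =>
      intro x hx
      have e1 : (R ^ ((n + 1 : ℕ) : ℤ)) x = R ((R ^ (n : ℤ)) x) := by
        have := zadd R 1 n x
        rw [zpow_one] at this
        rw [this]
        congr 2
        push_cast
        ring
      have e2 : (R ^ (-((n + 1 : ℕ) : ℤ))) (T x) = R⁻¹ ((R ^ (-(n : ℤ))) (T x)) := by
        have := zadd R (-1) (-n) (T x)
        rw [zpow_neg_one] at this
        rw [this]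
        congr 2
        push_cast
        ring
      rw [e1, e2, base _ (cl _ (zpow_mem gP _) x hx), ih x hx]
  have int : ∀ k : ℤ, ∀ x ∈ K.V, T ((R ^ k) x) = (R ^ (-k)) (T x) := by
    intro k x hx
    obtain ⟨n, rfl | rfl⟩ := k.eq_nat_or_neg
    · exact nat n x hx
    · have h1 := nat n ((R ^ (-(n : ℤ))) x) (cl _ (zpow_mem gP _) x hx)
      rw [zadd, add_neg_cancel, zpow_zero, Equiv.Perm.one_apply] at h1
      rw [h1, zadd, neg_neg, add_neg_cancel, zpow_zero, Equiv.Perm.one_apply]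
  have im : ∀ k : ℤ, T '' ((R ^ k : Equiv.Perm H3) '' {v, v'}) = (R ^ (-k) : Equiv.Perm H3) '' {v, v'} := by
    intro k
    rw [image_pair, image_pair, image_pair, int k v vV, int k v' vV', h.Tv, h.Tv', pair_comm]
  apply h.fT
  ext e
  constructor
  · rintro ⟨_, ⟨k, rfl⟩, rfl⟩
    exact ⟨-k, by rw [← hR]; exact im k⟩
  · rintro ⟨k, rfl⟩
    refine ⟨_, ⟨-k, rfl⟩, ?_⟩
    rw [← hR, im (-k), neg_neg]

end Pool.Agent.H83.CP.NCF
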